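import Pool.Agent.Q101.StDefs
import Pool.Agent.Q101.StD
import Pool.Agent.Results.MP_6b55e5_an.RogersQ2

set_option autoImplicit false

namespace Pool.Agent.Results.MP_6b55e5_an.RogersQ1

open MeasureTheory Q101.StA Q101.StB Q101.StC Q101.StD
open Q101.StDefs

/-- coordinates -/
def co (v : Plane) : ℝ × ℝ := (v 0, v 1)

/-- positive directions: half of the unit circle -/
def Pos (e : Plane) : Prop := 0 < e 0 ∨ (e 0 = 0 ∧ 0 < e 1)

theorem norm_sq {e : Plane} (he : ‖e‖ = 1) : e 0 ^ 2 + e 1 ^ 2 = 1 := by
  have h := EuclideanSpace.norm_sq_eq e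
  rw [he, Fin.sum_univ_two] at h
  simp only [Real.norm_eq_abs, sq_abs] at h
  linarith

theorem pos_or {e : Plane} (he : ‖e‖ = 1) : Pos e ∨ Pos (-e) := by
  have h := norm_sq he
  unfold Pos
  simp only [PiLp.neg_apply, Left.neg_pos_iff, neg_eq_zero]
  rcases lt_trichotomy (e 0) 0 with h0 | h0 | h0
  · right; left; exact h0
  · rcases lt_trichotomy (e 1) 0 with h1 | h1 | h1
    · right; right; exact ⟨h0, h1⟩
    · rw [h0, h1] at h; norm_num at h
    · left; right; exact ⟨h0, h1⟩
  · left; left; exact h0

theorem not_both {e : Plane} (h1 : Pos e) (h2 : Pos (-e)) : False := by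
  unfold Pos at h1 h2
  simp only [PiLp.neg_apply, Left.neg_pos_iff, neg_eq_zero] at h2
  rcases h1 with h | ⟨h, h'⟩ <;> rcases h2 with g | ⟨g, g'⟩ <;> linarith

/-- **Rogers' question Q1 has a negative answer**, also for unions of exactly one unit segment
in each direction. -/
theorem result : ∃ x : Plane → Plane,
    (∀ e : Plane, ‖e‖ = 1 → x (-e) = x e + e) ∧
    IsBesicovitch (segments x) ∧ ¬ PropertyS (segments x) := by
  classical
  obtain ⟨B, ⟨hBb, hB0, hBe⟩, _⟩ := Pool.Agent.Results.MP_6b55e5_an.RogersQ2.result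
  obtain ⟨Λ, hΛ, hvol, f, k, hf, hk⟩ := selection
  choose! xB hxB using hBe
  -- a unit segment of direction `e` through an uncovered point of the line `k F`
  have hseg : ∀ (F : I) (e : Plane), Valid F → ‖e‖ = 1 → 0 < e 0 → e 1 / e 0 = f F →
      ∃ a : Plane, segment ℝ a (a + e) ⊆ {v | co v ∈ K Λ} ∧
        ∃ v ∈ segment ℝ a (a + e), ∀ i, ¬ inStrip F i (co v) := by
    intro F e hF he he0 hslope
    obtain ⟨h1, h2, x0, hx0, h3⟩ := hk F hF
    have hn := norm_sq he
    have he1 : e 0 ≤ 1 := by nlinarith [sq_nonneg (e 1)]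
    set d := f F with hd
    have hed : e 1 = d * e 0 := by
      rw [div_eq_iff he0.ne'] at hslope; exact hslope
    set xl : ℝ := min x0 (1 - e 0) with hxl
    have hxl0 : 0 ≤ xl := le_min hx0.1 (by linarith)
    have hxl1 : xl ≤ x0 := min_le_left _ _
    have hxl2 : x0 ≤ xl + e 0 := by
      rw [hxl]
      rcases le_total x0 (1 - e 0) with h | h
      · rw [min_eq_left h]; linarith
      · rw [min_eq_right h]; linarith [hx0.2]
    have hxl3 : xl + e 0 ≤ 1 := by
      have : xl ≤ 1 - e 0 := min_le_right _ _
      linarith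
    have hpt : ∀ t ∈ Set.Icc (0:ℝ) 1, co ((!₂[xl, ev (k F) xl] : Plane) + t • e) =
        (xl + t * e 0, ev (k F) (xl + t * e 0)) := by
      intro t ht
      simp only [co, PiLp.add_apply, PiLp.smul_apply, smul_eq_mul, Prod.mk.injEq]
      refine ⟨by simp, ?_⟩
      show ev (k F) xl + t * e 1 = ev (k F) (xl + t * e 0)
      rw [ev_eq, ev_eq, h2, hed]
      ring
    refine ⟨!₂[xl, ev (k F) xl], ?_, ?_⟩
    · rw [segment_eq_image']
      rintro v ⟨t, ht, rfl⟩
      have e3 : (!₂[xl, ev (k F) xl] : Plane) + e - !₂[xl, ev (k F) xl] = e := by abel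
      simp only [e3]
      show co _ ∈ K Λ
      rw [hpt t ht]
      refine ⟨⟨?_, ?_⟩, k F, h1, rfl⟩
      · have := mul_nonneg ht.1 he0.le
        simp only; linarith
      · have := mul_le_mul_of_nonneg_right ht.2 he0.le
        simp only; linarith
    · have ht : (x0 - xl) / e 0 ∈ Set.Icc (0:ℝ) 1 := by
        constructor
        · apply div_nonneg _ he0.le; linarith
        · rw [div_le_one he0]; linarith
      refine ⟨!₂[xl, ev (k F) xl] + ((x0 - xl) / e 0) • e, ?_, ?_⟩
      · rw [segment_eq_image']
        refine ⟨(x0 - xl) / e 0, ht, ?_⟩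
        have e3 : (!₂[xl, ev (k F) xl] : Plane) + e - !₂[xl, ev (k F) xl] = e := by abel
        simp only [e3]
      · intro i
        rw [hpt _ ht]
        have : xl + (x0 - xl) / e 0 * e 0 = x0 := by field_simp; ring
        rw [this]
        exact h3 i
  choose! xS hxS1 hxS2 using hseg
  -- choice on positive directions
  let y : Plane → Plane := fun e =>
    if h : ∃ F, Valid F ∧ 0 < e 0 ∧ e 1 / e 0 = f F then xS h.choose e else xB e
  let x : Plane → Plane := fun e => if Pos e then y e else y (-e) - e
  -- `x (-e) = x e + e`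
  have hx1 : ∀ e : Plane, ‖e‖ = 1 → x (-e) = x e + e := by
    intro e he
    rcases pos_or he with h | h
    · have h' : ¬ Pos (-e) := fun h2 => not_both h h2
      simp only [x, if_pos h, if_neg h', neg_neg, sub_neg_eq_add]
    · have h' : ¬ Pos e := fun h2 => not_both h2 h
      simp only [x, if_pos h, if_neg h']
      abel
  have hsub : ∀ e : Plane, ‖e‖ = 1 → Pos e →
      segment ℝ (y e) (y e + e) ⊆ {v | co v ∈ K Λ} ∪ B := by
    intro e he hpos
    by_cases h : ∃ F, Valid F ∧ 0 < e 0 ∧ e 1 / e 0 = f F
    · simp only [y, dif_pos h]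
      have hs := h.choose_spec
      exact (hxS1 h.choose e hs.1 he hs.2.1 hs.2.2).trans Set.subset_union_left
    · simp only [y, dif_neg h]
      exact (hxB e he).trans Set.subset_union_right
  have hseg2 : ∀ e : Plane, ‖e‖ = 1 → segment ℝ (x e) (x e + e) ⊆ {v | co v ∈ K Λ} ∪ B := by
    intro e he
    rcases pos_or he with h | h
    · simp only [x, if_pos h]
      exact hsub e he h
    · have h' : ¬ Pos e := fun h2 => not_both h2 h
      simp only [x, if_neg h']
      have := hsub (-e) (by rw [norm_neg]; exact he) h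
      rw [segment_symm]
      have e3 : y (-e) - e + e = y (-e) := by abel
      rw [e3, sub_eq_add_neg]
      exact this
  set E : Set Plane := ⋃ e ∈ {e : Plane | ‖e‖ = 1}, segment ℝ (x e) (x e + e) with hE
  have hEsub : E ⊆ {v | co v ∈ K Λ} ∪ B := by
    rw [hE]
    apply Set.iUnion₂_subset
    intro e he
    exact hseg2 e he
  have hKc := isCompact_K hΛ
  have hEx : segments x = E := rfl
  refine ⟨x, hx1, ?_, ?_⟩
  rw [hEx]
  refine ⟨?_, ?_, ?_⟩
  · -- bounded
    apply Bornology.IsBounded.subset _ hEsub
    apply Bornology.IsBounded.union _ hBb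
    have : {v | co v ∈ K Λ} ⊆ (fun p : ℝ × ℝ => (!₂[p.1, p.2] : Plane)) '' K Λ := by
      intro v hv
      refine ⟨co v, hv, ?_⟩
      ext i
      fin_cases i <;> simp [co]
    refine (IsCompact.isBounded (hKc.image ?_)).subset this
    refine (PiLp.continuous_toLp 2 _).comp ?_
    apply continuous_pi
    intro i
    fin_cases i
    · exact continuous_fst
    · exact continuous_snd
  · -- null
    refine measure_mono_null hEsub (measure_union_null ?_ hB0)
    have hmp : MeasurePreserving co volume volume := by
      have h1 := PiLp.volume_preserving_ofLp (Fin 2)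
      have h2 := volume_preserving_finTwoArrow ℝ
      exact h2.comp h1
    have : {v | co v ∈ K Λ} = co ⁻¹' K Λ := rfl
    rw [this, hmp.measure_preimage hKc.measurableSet.nullMeasurableSet]
    exact hvol
  · -- unit segments
    intro e he
    refine ⟨x e, ?_⟩
    exact Set.subset_biUnion_of_mem (u := fun e => segment ℝ (x e) (x e + e))
      (show e ∈ {e : Plane | ‖e‖ = 1} from he)
  · -- no property (S)
    rw [hEx]
    intro hS
    obtain ⟨ι, hι, S, w, hst, hcov, hsum, htot⟩ := hS (1 / 1000) (by norm_num)
    obtain ⟨g, hg⟩ := Countable.exists_injective_nat ι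
    choose hw u c hu hSe using hst
    let F : I := fun n => (Function.extend g (fun i => u i 0) (fun _ => 1) n,
      Function.extend g (fun i => u i 1) 0 n, Function.extend g c 0 n, Function.extend g w 0 n)
    have hFg : ∀ i, F (g i) = (u i 0, u i 1, c i, w i) := by
      intro i
      simp only [F, hg.extend_apply]
    have hFn : ∀ n, (¬ ∃ i, g i = n) → F n = (1, 0, 0, 0) := by
      intro n hn
      simp only [F, Function.extend_apply' _ _ _ hn, Pi.zero_apply]
    have hF : Valid F := by
      constructor
      · intro n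
        by_cases hn : ∃ i, g i = n
        · obtain ⟨i, rfl⟩ := hn
          rw [hFg]
          exact ⟨norm_sq (hu i), (hw i).le⟩
        · rw [hFn n hn]; norm_num
      · have e1 : (fun n => ENNReal.ofReal (F n).2.2.2) =
            Function.extend g (fun i => ENNReal.ofReal (w i)) 0 := by
          funext n
          by_cases hn : ∃ i, g i = n
          · obtain ⟨i, rfl⟩ := hn
            rw [hFg, hg.extend_apply]
          · rw [hFn n hn, Function.extend_apply' _ _ _ hn]; simp
        rw [e1, tsum_extend_zero hg, ← ENNReal.ofReal_tsum_of_nonneg (fun i => (hw i).le) hsum]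
        exact ENNReal.ofReal_le_ofReal htot.le
    -- the direction of slope `f F`
    set d := f F with hd
    set s : ℝ := √(1 + d ^ 2) with hs
    have hs0 : 0 < s := by rw [hs]; positivity
    have hs2 : s ^ 2 = 1 + d ^ 2 := Real.sq_sqrt (by positivity)
    let e : Plane := !₂[1 / s, d / s]
    have he0 : e 0 = 1 / s := by simp [e]
    have he1 : e 1 = d / s := by simp [e]
    have he : ‖e‖ = 1 := by
      rw [EuclideanSpace.norm_eq, Fin.sum_univ_two, he0, he1]
      simp only [Real.norm_eq_abs, sq_abs]
      rw [div_pow, div_pow, ← add_div, hs2, one_pow, div_self (by positivity), Real.sqrt_one]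
    have hpos : 0 < e 0 := by rw [he0]; positivity
    have hslope : e 1 / e 0 = f F := by
      rw [he0, he1, ← hd]; field_simp
    have hex : ∃ F, Valid F ∧ 0 < e 0 ∧ e 1 / e 0 = f F := ⟨F, hF, hpos, hslope⟩
    have hchoose : hex.choose = F := by
      apply hf
      rw [← hex.choose_spec.2.2, hslope]
    have hxe : x e = xS F e := by
      simp only [x, if_pos (show Pos e from Or.inl hpos), y, dif_pos hex, hchoose]
    obtain ⟨v, hv, hvn⟩ := hxS2 F e hF he hpos hslope
    have hvE : v ∈ E := by
      rw [hE, Set.mem_iUnion₂]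
      exact ⟨e, he, by rw [hxe]; exact hv⟩
    obtain ⟨i, hi⟩ := Set.mem_iUnion.1 (hcov hvE)
    rw [hSe i] at hi
    apply hvn (g i)
    unfold inStrip
    rw [hFg]
    simp only [Set.mem_ofPred_eq, PiLp.inner_apply, Fin.sum_univ_two, RCLike.inner_apply,
      conj_trivial] at hi
    simp only [co]
    constructor <;> linarith [hi.1, hi.2]

end Pool.Agent.Results.MP_6b55e5_an.RogersQ1
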